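import Mathlib

set_option autoImplicit false

/-!
# Smallest (2,3)-graphs of given girth with adjacent vertices of degree two

Let `𝓓` be the class of the graphs in which one half of the vertices has degree 2 and the other half
has degree 3.  The smallest order of a graph in `𝓓` of girth 4 is 8, the smallest order of a graph in
`𝓓` of girth 6 is 12, and both values are attained by graphs in which two vertices of degree 2 are
adjacent.
-/

namespace Pool.Agent.Results.MP_6c91b3_co.AdjacentTwos

open Finset

/-- The degree of a vertex: the number of its neighbours. -/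
noncomputable def deg {V : Type} (G : SimpleGraph V) (v : V) : ℕ := (G.neighborSet v).ncard

/-- The class `𝓓₂₃`: exactly one half of the vertices has degree 2 and the other half has
degree 3. -/
def InD23 {V : Type} [Fintype V] (G : SimpleGraph V) : Prop :=
  2 * {v | deg G v = 2}.ncard = Fintype.card V ∧ 2 * {v | deg G v = 3}.ncard = Fintype.card V

/-- `G` is extremal for `g`: it lies in `𝓓₂₃`, has girth `g`, and no graph in `𝓓₂₃` of girth `g` has
fewer vertices. -/
def Extremal (g : ℕ) {V : Type} [Fintype V] (G : SimpleGraph V) : Prop :=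
  InD23 G ∧ G.egirth = g ∧
    ∀ (W : Type) [Fintype W] (H : SimpleGraph W), InD23 H → H.egirth = g →
      Fintype.card V ≤ Fintype.card W

/-- The statement of the question: for every `g ≥ 3` no graph which is extremal for `g` contains an
edge both of whose endpoints have degree 2. -/
def Question : Prop :=
  ∀ g : ℕ, 3 ≤ g → ∀ (V : Type) [Fintype V] (G : SimpleGraph V), Extremal g G →
    ∀ u v : V, G.Adj u v → ¬ (deg G u = 2 ∧ deg G v = 2)

section lower

variable {V : Type} (G : SimpleGraph V)

theorem no3 (h : 4 ≤ G.egirth) {a b c : V} (h1 : G.Adj a b) (h2 : G.Adj b c) (h3 : G.Adj c a) :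
    False := by
  classical
  let w : G.Walk a a := .cons h1 (.cons h2 (.cons h3 .nil))
  have hc : w.IsCycle :=
    { edges_nodup := by
        have := h1.ne; have := h2.ne; have := h3.ne
        simp [w]; aesop
      ne_nil := by simp [w]
      support_nodup := by
        have := h1.ne; have := h2.ne; have := h3.ne
        simp [w]; aesop }
  have := SimpleGraph.egirth_le_length hc
  have h4 : (4 : ℕ∞) ≤ ((3 : ℕ) : ℕ∞) := h.trans (by simpa [w] using this)
  have h5 : (4 : ℕ) ≤ 3 := by exact_mod_cast h4
  omega

theorem no4 (h : 5 ≤ G.egirth) {a b c d : V} (h1 : G.Adj a b) (h2 : G.Adj b c) (h3 : G.Adj c d)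
    (h4 : G.Adj d a) (hac : a ≠ c) (hbd : b ≠ d) : False := by
  classical
  let w : G.Walk a a := .cons h1 (.cons h2 (.cons h3 (.cons h4 .nil)))
  have hc : w.IsCycle :=
    { edges_nodup := by
        have := h1.ne; have := h2.ne; have := h3.ne; have := h4.ne
        simp [w]; aesop
      ne_nil := by simp [w]
      support_nodup := by
        have := h1.ne; have := h2.ne; have := h3.ne; have := h4.ne
        simp [w]; aesop }
  have := SimpleGraph.egirth_le_length hc
  have h4 : (5 : ℕ∞) ≤ ((4 : ℕ) : ℕ∞) := h.trans (by simpa [w] using this)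
  have h5 : (5 : ℕ) ≤ 4 := by exact_mod_cast h4
  omega

theorem no5 (h : 6 ≤ G.egirth) {a b c d e : V} (h1 : G.Adj a b) (h2 : G.Adj b c) (h3 : G.Adj c d)
    (h4 : G.Adj d e) (h5 : G.Adj e a) : False := by
  classical
  have h34 : 4 ≤ G.egirth := le_trans (by norm_num) h
  have h35 : 5 ≤ G.egirth := le_trans (by norm_num) h
  have hac : a ≠ c := by rintro rfl; exact no3 G h34 h3 h4 h5
  have hbd : b ≠ d := by rintro rfl; exact no3 G h34 h4 h5 h1
  have hce : c ≠ e := by rintro rfl; exact no3 G h34 h5 h1 h2
  have hda : d ≠ a := by rintro rfl; exact no3 G h34 h1 h2 h3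
  have heb : e ≠ b := by rintro rfl; exact no3 G h34 h2 h3 h4
  let w : G.Walk a a := .cons h1 (.cons h2 (.cons h3 (.cons h4 (.cons h5 .nil))))
  have hc : w.IsCycle :=
    { edges_nodup := by
        have := h1.ne; have := h2.ne; have := h3.ne; have := h4.ne; have := h5.ne
        simp [w]; aesop
      ne_nil := by simp [w]
      support_nodup := by
        have := h1.ne; have := h2.ne; have := h3.ne; have := h4.ne; have := h5.ne
        simp [w]; aesop }
  have := SimpleGraph.egirth_le_length hc
  have h4 : (6 : ℕ∞) ≤ ((5 : ℕ) : ℕ∞) := h.trans (by simpa [w] using this)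
  have h5 : (6 : ℕ) ≤ 5 := by exact_mod_cast h4
  omega

end lower

section count

variable {V : Type} [Fintype V] {G : SimpleGraph V}

theorem two_or_three (h : InD23 G) (v : V) : deg G v = 2 ∨ deg G v = 3 := by
  classical
  by_contra hcon
  push Not at hcon
  have hdis : Disjoint {v | deg G v = 2} {v | deg G v = 3} := by
    rw [Set.disjoint_left]
    intro x hx hx'
    simp only [Set.mem_ofPred_eq] at hx hx'
    omega
  have hunion : ({v | deg G v = 2} ∪ {v | deg G v = 3}).ncard = Fintype.card V := by
    rw [Set.ncard_union_eq hdis (Set.toFinite _) (Set.toFinite _)]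
    have := h.1; have := h.2; omega
  have huniv : ({v | deg G v = 2} ∪ {v | deg G v = 3} : Set V) = Set.univ := by
    apply Set.eq_of_subset_of_ncard_le (Set.subset_univ _)
    · rw [hunion, Set.ncard_univ, Nat.card_eq_fintype_card]
  have : v ∈ ({v | deg G v = 2} ∪ {v | deg G v = 3} : Set V) := by rw [huniv]; trivial
  rcases this with h1 | h1
  · exact hcon.1 h1
  · exact hcon.2 h1

theorem four_dvd (h : InD23 G) : 4 ∣ Fintype.card V := by
  classical
  have h1 := G.sum_degrees_eq_twice_card_edges
  have h2 : ∀ v, G.degree v = deg G v := by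
    intro v
    unfold deg
    rw [Set.ncard_eq_toFinset_card']
    rfl
  have h3 : ∀ v, G.degree v = 2 + (if deg G v = 3 then 1 else 0) := by
    intro v
    rw [h2]
    rcases two_or_three h v with h4 | h4 <;> simp [h4]
  simp_rw [h3] at h1
  rw [Finset.sum_add_distrib, ← Finset.card_filter] at h1
  have h5 : ({v | deg G v = 3} : Set V).ncard = #(univ.filter (fun v => deg G v = 3)) := by
    rw [Set.ncard_eq_toFinset_card']
    congr 1
    ext v; simp
  have h6 := h.2
  rw [h5] at h6
  simp only [sum_const, card_univ, smul_eq_mul] at h1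
  omega

/-- neighbourhood as a finset -/
noncomputable def nb (G : SimpleGraph V) (v : V) : Finset V := by
  classical exact univ.filter (fun u => G.Adj v u)

theorem mem_nb {v u : V} : u ∈ nb G v ↔ G.Adj v u := by
  classical
  simp [nb]

theorem card_nb (v : V) : #(nb G v) = deg G v := by
  classical
  unfold deg
  rw [Set.ncard_eq_toFinset_card']
  congr 1
  ext u
  simp [mem_nb]

theorem exists_three (h : InD23 G) [Nonempty V] : ∃ v, deg G v = 3 := by
  by_contra hcon
  push Not at hcon
  have h1 : {v | deg G v = 3} = (∅ : Set V) := by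
    ext v; simp [hcon v]
  have h2 := h.2
  rw [h1] at h2
  simp only [Set.ncard_empty, mul_zero] at h2
  exact absurd h2.symm Fintype.card_ne_zero

omit [Fintype V] in
theorem nonempty_of_egirth {g : ℕ} (h : G.egirth = g) : Nonempty V := by
  by_contra hcon
  rw [not_nonempty_iff] at hcon
  have : G.IsAcyclic := fun v => (hcon.false v).elim
  rw [this.egirth_eq_top] at h
  exact absurd h (by simp)

theorem lower4 (h : InD23 G) (hg : G.egirth = (4 : ℕ)) : 8 ≤ Fintype.card V := by
  classical
  have := nonempty_of_egirth hg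
  have h4 : (4 : ℕ∞) ≤ G.egirth := by rw [hg]; norm_num
  obtain ⟨v, hv⟩ := exists_three h
  have hne : (nb G v).Nonempty := by
    rw [← card_pos, card_nb, hv]; norm_num
  obtain ⟨u, hu⟩ := hne
  rw [mem_nb] at hu
  have hdis : Disjoint (nb G v) (nb G u) := by
    rw [Finset.disjoint_left]
    intro x hx hx'
    rw [mem_nb] at hx hx'
    exact no3 G h4 hu hx' hx.symm
  have h1 : #(nb G v ∪ nb G u) ≤ Fintype.card V := by
    rw [← card_univ]; exact card_le_card (subset_univ _)
  rw [card_union_of_disjoint hdis, card_nb, card_nb, hv] at h1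
  have h2 := two_or_three h u
  have h3 := four_dvd h
  omega

theorem lower6 (h : InD23 G) (hg : G.egirth = (6 : ℕ)) : 12 ≤ Fintype.card V := by
  classical
  have := nonempty_of_egirth hg
  have h6 : (6 : ℕ∞) ≤ G.egirth := by rw [hg]; norm_num
  have h5 : (5 : ℕ∞) ≤ G.egirth := le_trans (by norm_num) h6
  have h4 : (4 : ℕ∞) ≤ G.egirth := le_trans (by norm_num) h6
  have hdvd := four_dvd h
  suffices hs : 9 ≤ Fintype.card V by omega
  by_cases hc : ∃ u v, G.Adj u v ∧ deg G u = 3 ∧ deg G v = 3
  · obtain ⟨u, v, huv, hu, hv⟩ := hc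
    -- the other neighbours of u and of v
    have hA : #((nb G u).erase v) = 2 := by
      rw [card_erase_of_mem (mem_nb.2 huv), card_nb, hu]
    have hB : #((nb G v).erase u) = 2 := by
      rw [card_erase_of_mem (mem_nb.2 huv.symm), card_nb, hv]
    rw [card_eq_two] at hA hB
    obtain ⟨a, b, hab, hA⟩ := hA
    obtain ⟨c, d, hcd, hB⟩ := hB
    have ha : a ∈ (nb G u).erase v := by rw [hA]; simp
    have hb : b ∈ (nb G u).erase v := by rw [hA]; simp
    have hc : c ∈ (nb G v).erase u := by rw [hB]; simp
    have hd : d ∈ (nb G v).erase u := by rw [hB]; simp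
    rw [mem_erase, mem_nb] at ha hb hc hd
    obtain ⟨hav, hua⟩ := ha
    obtain ⟨hbv, hub⟩ := hb
    obtain ⟨hcu, hvc⟩ := hc
    obtain ⟨hdu, hvd⟩ := hd
    have next : ∀ x y, G.Adj x y → ∃ z, G.Adj x z ∧ z ≠ y := by
      intro x y hxy
      have h1 : 1 < #(nb G x) := by
        rw [card_nb]; rcases two_or_three h x with h2 | h2 <;> omega
      obtain ⟨z, hz, hzy⟩ := Finset.exists_mem_ne h1 y
      exact ⟨z, mem_nb.1 hz, hzy⟩
    obtain ⟨a', haa, hau⟩ := next a u hua.symm
    obtain ⟨b', hbb, hbu⟩ := next b u hub.symm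
    obtain ⟨c', hcc, hcv⟩ := next c v hvc.symm
    have hnd : [u, v, a, b, c, d, a', b', c'].Nodup := by
      have n1 : u ≠ v := huv.ne
      have n2 : u ≠ a := hua.ne
      have n3 : u ≠ b := hub.ne
      have n4 : u ≠ c := hcu.symm
      have n5 : u ≠ d := hdu.symm
      have n6 : u ≠ a' := hau.symm
      have n7 : u ≠ b' := hbu.symm
      have n8 : u ≠ c' := by
        rintro rfl; exact no3 G h4 huv hvc hcc
      have n9 : v ≠ a := hav.symm
      have n10 : v ≠ b := hbv.symm
      have n11 : v ≠ c := hvc.ne
      have n12 : v ≠ d := hvd.ne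
      have n13 : v ≠ a' := by
        rintro rfl; exact no3 G h4 hua haa huv.symm
      have n14 : v ≠ b' := by
        rintro rfl; exact no3 G h4 hub hbb huv.symm
      have n15 : v ≠ c' := hcv.symm
      have n17 : a ≠ c := by
        rintro rfl; exact no3 G h4 hua hvc.symm huv.symm
      have n18 : a ≠ d := by
        rintro rfl; exact no3 G h4 hua hvd.symm huv.symm
      have n19 : a ≠ a' := haa.ne
      have n20 : a ≠ b' := by
        rintro rfl; exact no3 G h4 hub hbb hua.symm
      have n21 : a ≠ c' := by
        rintro rfl; exact no4 G h5 hua hcc.symm hvc.symm huv.symm n4 hav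
      have n22 : b ≠ c := by
        rintro rfl; exact no3 G h4 hub hvc.symm huv.symm
      have n23 : b ≠ d := by
        rintro rfl; exact no3 G h4 hub hvd.symm huv.symm
      have n24 : b ≠ a' := by
        rintro rfl; exact no3 G h4 hua haa hub.symm
      have n25 : b ≠ b' := hbb.ne
      have n26 : b ≠ c' := by
        rintro rfl; exact no4 G h5 hub hcc.symm hvc.symm huv.symm n4 hbv
      have n28 : c ≠ a' := by
        rintro rfl; exact no4 G h5 hua haa hvc.symm huv.symm n4 hav
      have n29 : c ≠ b' := by
        rintro rfl; exact no4 G h5 hub hbb hvc.symm huv.symm n4 hbv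
      have n30 : c ≠ c' := hcc.ne
      have n31 : d ≠ a' := by
        rintro rfl; exact no4 G h5 hua haa hvd.symm huv.symm n5 hav
      have n32 : d ≠ b' := by
        rintro rfl; exact no4 G h5 hub hbb hvd.symm huv.symm n5 hbv
      have n33 : d ≠ c' := by
        rintro rfl; exact no3 G h4 hvc hcc hvd.symm
      have n34 : a' ≠ b' := by
        rintro rfl; exact no4 G h5 hua haa hbb.symm hub.symm n6 hab
      have n35 : a' ≠ c' := by
        rintro rfl; exact no5 G h6 hua haa hcc.symm hvc.symm huv.symm
      have n36 : b' ≠ c' := by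
        rintro rfl; exact no5 G h6 hub hbb hcc.symm hvc.symm huv.symm
      simp only [List.nodup_cons, List.mem_cons, List.not_mem_nil, or_false, not_or,
        List.nodup_nil, and_true, not_false_eq_true]
      refine ⟨⟨n1, n2, n3, n4, n5, n6, n7, n8⟩, ⟨n9, n10, n11, n12, n13, n14, n15⟩,
        ⟨hab, n17, n18, n19, n20, n21⟩, ⟨n22, n23, n24, n25, n26⟩, ⟨hcd, n28, n29, n30⟩,
        ⟨n31, n32, n33⟩, ⟨n34, n35⟩, n36⟩
    have := List.Nodup.length_le_card hnd
    simpa using this
  · exfalso
    push Not at hc
    -- all neighbours of vertices of degree three have degree two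
    have h1 : ∀ v ∈ univ.filter (fun v => deg G v = 3),
        3 ≤ #((univ.filter (fun u => deg G u = 2)).bipartiteAbove (fun v u => G.Adj v u) v) := by
      intro v hv
      rw [mem_filter] at hv
      have : nb G v ⊆ (univ.filter (fun u => deg G u = 2)).bipartiteAbove
          (fun v u => G.Adj v u) v := by
        intro u hu
        rw [mem_nb] at hu
        rw [mem_bipartiteAbove, mem_filter]
        refine ⟨⟨mem_univ _, ?_⟩, hu⟩
        rcases two_or_three h u with h2 | h2
        · exact h2
        · exact absurd h2 (hc v u hu hv.2)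
      calc 3 = #(nb G v) := by rw [card_nb, hv.2]
        _ ≤ _ := card_le_card this
    have h2 : ∀ u ∈ univ.filter (fun u => deg G u = 2),
        #((univ.filter (fun v => deg G v = 3)).bipartiteBelow (fun v u => G.Adj v u) u) ≤ 2 := by
      intro u hu
      rw [mem_filter] at hu
      have : (univ.filter (fun v => deg G v = 3)).bipartiteBelow
          (fun v u => G.Adj v u) u ⊆ nb G u := by
        intro v hv
        rw [mem_bipartiteBelow] at hv
        exact mem_nb.2 hv.2.symm
      calc _ ≤ #(nb G u) := card_le_card this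
        _ = 2 := by rw [card_nb, hu.2]
    have h3 := card_mul_le_card_mul (fun v u => G.Adj v u) h1 h2
    have e2 : ({v | deg G v = 2} : Set V).ncard = #(univ.filter (fun v => deg G v = 2)) := by
      rw [Set.ncard_eq_toFinset_card']
      congr 1
      ext v; simp
    have e3 : ({v | deg G v = 3} : Set V).ncard = #(univ.filter (fun v => deg G v = 3)) := by
      rw [Set.ncard_eq_toFinset_card']
      congr 1
      ext v; simp
    have f2 := h.1
    have f3 := h.2
    rw [e2] at f2
    rw [e3] at f3
    have hpos : 0 < Fintype.card V := Fintype.card_pos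
    omega

end count

section examples

/-- the edges of the graph of girth 4 -/
def E8 : List (Fin 8 × Fin 8) :=
  [(0,1), (0,2), (1,3), (2,3), (2,4), (3,5), (4,5), (4,6), (5,7), (6,7)]

/-- a graph with 8 vertices in `𝓓₂₃` of girth 4 -/
def G8 : SimpleGraph (Fin 8) where
  Adj a b := (a, b) ∈ E8 ∨ (b, a) ∈ E8
  symm := ⟨fun _ _ h => h.symm⟩
  loopless := ⟨by decide⟩

/-- the edges of the graph of girth 6 -/
def E12 : List (Fin 12 × Fin 12) :=
  [(0,1), (0,2), (1,3), (2,4), (2,5), (3,6), (3,7), (4,6), (4,8), (5,7), (5,9), (6,10), (7,11),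
    (8,11), (9,10)]

/-- a graph with 12 vertices in `𝓓₂₃` of girth 6 -/
def G12 : SimpleGraph (Fin 12) where
  Adj a b := (a, b) ∈ E12 ∨ (b, a) ∈ E12
  symm := ⟨fun _ _ h => h.symm⟩
  loopless := ⟨by decide⟩

instance : DecidableRel G8.Adj := fun a b => by unfold G8; infer_instance
instance : DecidableRel G12.Adj := fun a b => by unfold G12; infer_instance

theorem four_le {V : Type} (G : SimpleGraph V)
    (h : ∀ a b c, G.Adj a b → G.Adj b c → ¬ G.Adj c a) : 4 ≤ G.egirth := by
  rw [SimpleGraph.le_egirth]
  intro a w hw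
  have h3 := hw.three_le_length
  by_contra hcon
  have hl : w.length = 3 := by
    push Not at hcon
    have : w.length < 4 := by exact_mod_cast hcon
    omega
  match w, hl with
  | .cons h1 (.cons h2 (.cons h3 .nil)), _ => exact h _ _ _ h1 h2 h3

theorem six_le {V : Type} (G : SimpleGraph V)
    (h : ∀ a b c, G.Adj a b → G.Adj b c → ¬ G.Adj c a)
    (h' : ∀ a b c d, G.Adj a b → G.Adj b c → G.Adj c d → G.Adj d a → a = c ∨ b = d)
    (h'' : ∀ a b c d e, G.Adj a b → G.Adj b c → G.Adj c d → G.Adj d e → ¬ G.Adj e a) :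
    6 ≤ G.egirth := by
  rw [SimpleGraph.le_egirth]
  intro a w hw
  have h3 := hw.three_le_length
  by_contra hcon
  have hl : w.length = 3 ∨ w.length = 4 ∨ w.length = 5 := by
    push Not at hcon
    have : w.length < 6 := by exact_mod_cast hcon
    omega
  rcases hl with hl | hl | hl
  · match w, hl with
    | .cons h1 (.cons h2 (.cons h3 .nil)), _ => exact h _ _ _ h1 h2 h3
  · match w, hl with
    | .cons h1 (.cons h2 (.cons h3 (.cons h4 .nil))), _ =>
      have hs := hw.support_nodup
      rcases h' _ _ _ _ h1 h2 h3 h4 with h5 | h5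
      · subst h5; simp at hs
      · subst h5; simp at hs
  · match w, hl with
    | .cons h1 (.cons h2 (.cons h3 (.cons h4 (.cons h5 .nil)))), _ =>
      exact h'' _ _ _ _ _ h1 h2 h3 h4 h5

theorem deg_eq {n : ℕ} (G : SimpleGraph (Fin n)) [DecidableRel G.Adj] (v : Fin n) :
    deg G v = #(univ.filter (fun u => G.Adj v u)) := by
  unfold deg
  rw [Set.ncard_eq_toFinset_card']
  congr 1
  ext u
  simp

theorem inD_iff {n : ℕ} (G : SimpleGraph (Fin n)) [DecidableRel G.Adj]
    (h2 : 2 * #(univ.filter (fun v => #(univ.filter (fun u => G.Adj v u)) = 2)) = n)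
    (h3 : 2 * #(univ.filter (fun v => #(univ.filter (fun u => G.Adj v u)) = 3)) = n) :
    InD23 G := by
  constructor
  · rw [Set.ncard_eq_toFinset_card', Fintype.card_fin]
    refine Eq.trans ?_ h2
    congr 2
    ext v; simp [deg_eq]
  · rw [Set.ncard_eq_toFinset_card', Fintype.card_fin]
    refine Eq.trans ?_ h3
    congr 2
    ext v; simp [deg_eq]

theorem G8_girth : G8.egirth = (4 : ℕ) := by
  apply le_antisymm
  · have h1 : G8.Adj 0 1 := by decide
    have h2 : G8.Adj 1 3 := by decide
    have h3 : G8.Adj 3 2 := by decide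
    have h4 : G8.Adj 2 0 := by decide
    let w : G8.Walk 0 0 := .cons h1 (.cons h2 (.cons h3 (.cons h4 .nil)))
    have hc : w.IsCycle :=
      { edges_nodup := by simp [w]
        ne_nil := by simp [w]
        support_nodup := by simp [w] }
    simpa [w] using SimpleGraph.egirth_le_length hc
  · exact four_le G8 (by decide)

theorem G12_girth : G12.egirth = (6 : ℕ) := by
  apply le_antisymm
  · have h1 : G12.Adj 0 1 := by decide
    have h2 : G12.Adj 1 3 := by decide
    have h3 : G12.Adj 3 6 := by decide
    have h4 : G12.Adj 6 4 := by decide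
    have h5 : G12.Adj 4 2 := by decide
    have h6 : G12.Adj 2 0 := by decide
    let w : G12.Walk 0 0 := .cons h1 (.cons h2 (.cons h3 (.cons h4 (.cons h5 (.cons h6 .nil)))))
    have hc : w.IsCycle :=
      { edges_nodup := by simp [w]
        ne_nil := by simp [w]
        support_nodup := by simp [w] }
    simpa [w] using SimpleGraph.egirth_le_length hc
  · refine six_le G12 (by decide +kernel) ?_ ?_
    · decide +kernel
    · decide +kernel

theorem G8_D : InD23 G8 := inD_iff G8 (by decide +kernel) (by decide +kernel)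

theorem G12_D : InD23 G12 := inD_iff G12 (by decide +kernel) (by decide +kernel)

end examples

/-- **Extremal graphs for girth 4 and girth 6 with adjacent vertices of degree 2.** -/
theorem result :
    (∃ G : SimpleGraph (Fin 8), Extremal 4 G ∧ ∃ u v, G.Adj u v ∧ deg G u = 2 ∧ deg G v = 2) ∧
    (∃ G : SimpleGraph (Fin 12), Extremal 6 G ∧ ∃ u v, G.Adj u v ∧ deg G u = 2 ∧ deg G v = 2) ∧
    ¬ Question := by
  have h8 : Extremal 4 G8 := by
    refine ⟨G8_D, G8_girth, fun W _ H hH hg => ?_⟩
    rw [Fintype.card_fin]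
    exact lower4 hH hg
  have h12 : Extremal 6 G12 := by
    refine ⟨G12_D, G12_girth, fun W _ H hH hg => ?_⟩
    rw [Fintype.card_fin]
    exact lower6 hH hg
  have a8 : G8.Adj 0 1 ∧ deg G8 0 = 2 ∧ deg G8 1 = 2 := by
    refine ⟨by decide, ?_, ?_⟩ <;> rw [deg_eq] <;> decide
  have a12 : G12.Adj 0 1 ∧ deg G12 0 = 2 ∧ deg G12 1 = 2 := by
    refine ⟨by decide, ?_, ?_⟩ <;> rw [deg_eq] <;> decide
  refine ⟨⟨G8, h8, 0, 1, a8⟩, ⟨G12, h12, 0, 1, a12⟩, ?_⟩
  intro hQ
  exact hQ 4 (by norm_num) (Fin 8) G8 h8 0 1 a8.1 a8.2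

end Pool.Agent.Results.MP_6c91b3_co.AdjacentTwos
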